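import Mathlib

open Finset Filter
open scoped InnerProductSpace

namespace Pool.Agent.Results.MP_c77635_an.Counter

variable {𝕜 : Type} [RCLike 𝕜]

/-- the space `ℓ₂` -/
abbrev H (𝕜 : Type) [RCLike 𝕜] := lp (fun _ : ℕ => 𝕜) 2

/-- the non-increasing rearrangement, indexed from `0` -/
noncomputable def rearr (a : ℕ → 𝕜) (n : ℕ) : ℝ :=
  sInf {t : ℝ | 0 ≤ t ∧ {i | t < ‖a i‖}.encard ≤ n}

/-- the Lorentz quasi-norm of `ℓ_{2,s}` -/
noncomputable def lorentz (s : ℝ) (a : ℕ → 𝕜) : ℝ :=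
  (∑' n, rearr a n ^ s * ((n : ℝ) + 1) ^ (s / 2 - 1)) ^ (1 / s)

section
variable (𝕜) {E : Type} [NormedAddCommGroup E] [InnerProductSpace 𝕜 E]

/-- `x` is a basis with biorthogonal system `y` -/
def IsBasis (x y : ℕ → E) : Prop :=
  Dense (Submodule.span 𝕜 (Set.range x) : Set E) ∧
    (∀ n k, ⟪y n, x k⟫_𝕜 = if n = k then 1 else 0) ∧ (∀ f, (∀ n, ⟪y n, f⟫_𝕜 = 0) → f = 0) ∧
    ∃ C, ∀ n, ‖x n‖ ≤ C ∧ ‖y n‖ ≤ C

/-- the fundamental function -/
noncomputable def phi (x : ℕ → E) (m : ℕ) : ℝ :=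
  sSup {r | ∃ (A : Finset ℕ) (ε : ℕ → 𝕜), A.card ≤ m ∧ (∀ n, ‖ε n‖ = 1) ∧ r = ‖∑ n ∈ A, ε n • x n‖}

def Bidemocratic (x y : ℕ → E) : Prop :=
  ∃ C : ℝ, ∀ m : ℕ, 1 ≤ m → phi 𝕜 x m * phi 𝕜 y m / m ≤ C

/-- the embedding of `ℓ_{2,q}` induced by `x` -/
def Embeds (q : ℝ) (x : ℕ → E) : Prop :=
  ∃ C : ℝ, ∀ a : ℕ →₀ 𝕜, ‖a.sum fun n t => t • x n‖ ≤ C * lorentz q a
end

noncomputable def b (n : ℕ) : ℝ := if n.unpair.2 < n.unpair.1 then 1 / √(n.unpair.2 + 1) else 0

noncomputable def β (k : ℕ) : ℝ := √(∑ j ∈ range k, 1 / ((j : ℝ) + 1))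

noncomputable def e (n : ℕ) : H 𝕜 := lp.single 2 n 1

noncomputable def v (k : ℕ) : H 𝕜 := ∑ j ∈ range k, (b (k.pair j) : 𝕜) • e (k.pair j)

noncomputable def z (c : ℕ → ℝ) (n : ℕ) : H 𝕜 :=
  e n + ((c n.unpair.1 * b n / β n.unpair.1 : ℝ) : 𝕜) • v n.unpair.1

theorem ee (m n : ℕ) : ⟪(e m : H 𝕜), e n⟫_𝕜 = if m = n then 1 else 0 := by
  simp [e, lp.inner_single_left, Pi.single_apply]

theorem ev (m k : ℕ) : ⟪(e m : H 𝕜), v k⟫_𝕜 = if m.unpair.1 = k then (b m : 𝕜) else 0 := by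
  simp only [v, inner_sum, inner_smul_right, ee]
  split_ifs with h
  · subst h
    rw [sum_eq_single m.unpair.2 (fun j _ hj => by
      rw [if_neg (fun h => hj (by rw [h]; simp)), mul_zero]) fun h => by simp [b, mem_range.not.1 h]]
    simp
  · exact sum_eq_zero fun j _ => by rw [if_neg (fun h' => h (by rw [h']; simp)), mul_zero]

theorem bb (k : ℕ) : ∑ j ∈ range k, b (k.pair j) * b (k.pair j) = β k * β k := by
  rw [β, Real.mul_self_sqrt (by positivity)]
  refine sum_congr rfl fun j hj => ?_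
  simp only [b, Nat.unpair_pair, if_pos (mem_range.1 hj)]
  rw [div_mul_div_comm, Real.mul_self_sqrt (by positivity), one_mul]

theorem vv (k l : ℕ) : ⟪(v k : H 𝕜), v l⟫_𝕜 = if k = l then ((β k * β k : ℝ) : 𝕜) else 0 := by
  rw [v, sum_inner]
  simp only [inner_smul_left, ev, Nat.unpair_pair, RCLike.conj_ofReal]
  split_ifs
  · rw [← bb]; push_cast; rfl
  · simp

theorem β_pos {n : ℕ} (h : b n ≠ 0) : 0 < β n.unpair.1 := by
  refine Real.sqrt_pos.2 (sum_pos (fun _ _ => by positivity) (nonempty_range_iff.2 fun h' => h ?_))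
  simp [b, h']

theorem β_nn (k : ℕ) : 0 ≤ β k := Real.sqrt_nonneg _

theorem comb (c : ℕ → ℝ) (k : ℕ) : ∑ j ∈ range k, (b (k.pair j) : 𝕜) • z c (k.pair j) =
    ((1 + c k * β k : ℝ) : 𝕜) • (v k : H 𝕜) := by
  simp only [z, smul_add, sum_add_distrib, Nat.unpair_pair, smul_smul, ← sum_smul,
    ← RCLike.ofReal_mul, ← RCLike.ofReal_sum, RCLike.ofReal_add, add_smul, RCLike.ofReal_one,
    one_smul]
  congr 3
  refine Eq.trans ?_ (congrArg (c k * ·) (mul_self_div_self (β k)))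
  rw [← bb, sum_div, mul_sum]
  exact sum_congr rfl fun _ _ => by ring

theorem dense (c : ℕ → ℝ) (hc : ∀ k, 1 + c k * β k ≠ 0) (f : H 𝕜) (h : ∀ n, ⟪z c n, f⟫_𝕜 = 0) :
    f = 0 := by
  have h1 : ∀ k, ⟪(v k : H 𝕜), f⟫_𝕜 = 0 := fun k => by
    have h2 := congrArg (fun w => ⟪w, f⟫_𝕜) (comb (𝕜 := 𝕜) c k)
    simp only [sum_inner, inner_smul_left, h, mul_zero, sum_const_zero, RCLike.conj_ofReal] at h2
    exact (mul_eq_zero.1 h2.symm).resolve_left (RCLike.ofReal_ne_zero.2 (hc k))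
  refine lp.ext (funext fun n => ?_)
  simpa [z, inner_add_left, inner_smul_left, h1, e, lp.inner_single_left] using h n

theorem hs (J : Finset ℕ) : ∑ j ∈ J, 1 / √((j : ℝ) + 1) ≤ 2 * √J.card := by
  induction J using Finset.induction_on_max with
  | empty => simp
  | insert a J h ih =>
    have h1 : a ∉ J := fun h' => lt_irrefl _ (h a h')
    have h2 : (J.card : ℝ) ≤ a := by
      exact_mod_cast (card_le_card fun x hx => mem_range.2 (h x hx)).trans (card_range a).le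
    rw [sum_insert h1, card_insert_of_notMem h1]
    push_cast
    have h3 : 0 < √((J.card : ℝ) + 1) := by positivity
    have h4 : 1 / √((a : ℝ) + 1) ≤ 1 / √((J.card : ℝ) + 1) := by gcongr
    have h5 : 1 / √((J.card : ℝ) + 1) ≤ 2 * √((J.card : ℝ) + 1) - 2 * √J.card := by
      rw [div_le_iff₀ h3]
      nlinarith [Real.mul_self_sqrt (show (0:ℝ) ≤ J.card + 1 by positivity),
        Real.mul_self_sqrt (show (0:ℝ) ≤ J.card by positivity),
        sq_nonneg (√((J.card : ℝ) + 1) - √J.card)]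
    linarith

theorem nrm (A : Finset ℕ) (w : ℕ → H 𝕜) (h : ∀ i j, i ≠ j → ⟪w i, w j⟫_𝕜 = 0) :
    ‖∑ i ∈ A, w i‖ ^ 2 = ∑ i ∈ A, ‖w i‖ ^ 2 := by
  rw [← inner_self_eq_norm_sq (𝕜 := 𝕜), sum_inner, map_sum]
  refine sum_congr rfl fun i hi => ?_
  rw [inner_sum, sum_eq_single i (fun j _ hj => h i j hj.symm) (fun h => absurd hi h),
    inner_self_eq_norm_sq]

theorem bound (c : ℕ → ℝ) (hc : ∀ k, |c k| ≤ 1) (A : Finset ℕ) (ε : ℕ → 𝕜)
    (hε : ∀ n, ‖ε n‖ = 1) : ‖∑ n ∈ A, ε n • (z c n : H 𝕜)‖ ≤ 3 * √A.card := by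
  simp only [z, smul_add, sum_add_distrib]
  have h1 : ‖∑ n ∈ A, ε n • (e n : H 𝕜)‖ ≤ √A.card := Real.le_sqrt_of_sq_le (by
    rw [nrm _ _ fun i j h => by simp [inner_smul_left, inner_smul_right, ee, h]]
    simp [norm_smul, hε, e])
  have h2 : ‖∑ n ∈ A, ε n • ((c n.unpair.1 * b n / β n.unpair.1 : ℝ) : 𝕜) • (v n.unpair.1 : H 𝕜)‖
      ≤ 2 * √A.card := by
    refine abs_le_of_sq_le_sq' ?_ (by positivity) |>.2
    rw [← sum_fiberwise_of_maps_to (g := fun n => n.unpair.1)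
      (t := A.image fun n => n.unpair.1) fun n hn => mem_image_of_mem _ hn,
      mul_pow, Real.sq_sqrt (by positivity), card_eq_sum_card_image fun n => n.unpair.1]
    have e1 : ∀ k, ∑ n ∈ A with n.unpair.1 = k, ε n • ((c n.unpair.1 * b n / β n.unpair.1 : ℝ) : 𝕜)
        • (v n.unpair.1 : H 𝕜) = (∑ n ∈ A with n.unpair.1 = k, ε n * (c k * b n / β k : ℝ)) • v k :=
      fun k => by
        rw [sum_smul]
        exact sum_congr rfl fun n hn => by rw [(mem_filter.1 hn).2, smul_smul]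
    simp only [e1]
    rw [nrm _ _ fun i j h => by simp [inner_smul_left, inner_smul_right, vv, h], Nat.cast_sum,
      mul_sum]
    refine sum_le_sum fun k _ => ?_
    have e2 : ‖(v k : H 𝕜)‖ = β k := by
      rw [norm_eq_sqrt_re_inner (𝕜 := 𝕜), vv, if_pos rfl, RCLike.ofReal_re,
        Real.sqrt_mul_self (β_nn k)]
    set B := A.filter fun n => n.unpair.1 = k
    have hi : Set.InjOn (fun n : ℕ => n.unpair.2) B := fun m hm n hn h => by
      rw [← m.pair_unpair, ← n.pair_unpair, (mem_filter.1 hm).2, (mem_filter.1 hn).2]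
      exact congrArg _ h
    have e3 := hs (B.image fun n => n.unpair.2)
    rw [sum_image hi, card_image_of_injOn hi] at e3
    rw [← Real.sq_sqrt (show (0:ℝ) ≤ B.card by positivity), ← mul_pow, norm_smul, e2]
    refine pow_le_pow_left₀ (by have := β_nn k; positivity) (le_trans ?_ e3) 2
    refine (mul_le_mul_of_nonneg_right (norm_sum_le _ _) (β_nn k)).trans ?_
    rw [sum_mul]
    refine sum_le_sum fun n _ => ?_
    have hb : |b n| ≤ 1 / √((n.unpair.2 : ℝ) + 1) := by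
      unfold b; split_ifs
      · exact (abs_of_nonneg (by positivity)).le
      · rw [abs_zero]; positivity
    rw [norm_mul, hε, one_mul, RCLike.norm_ofReal, abs_div, abs_of_nonneg (β_nn k), abs_mul]
    rw [div_mul_comm]
    exact (mul_le_of_le_one_left (by positivity) (div_self_le_one _)).trans
      ((mul_le_of_le_one_left (abs_nonneg _) (hc k)).trans hb)
  exact (norm_add_le _ _).trans (by linarith)

theorem result (𝕜 : Type) [RCLike 𝕜] : ∃ x y : ℕ → lp (fun _ : ℕ => 𝕜) 2,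
    IsBasis 𝕜 x y ∧ Bidemocratic 𝕜 x y ∧ ∀ q : ℝ, 1 < q → ¬ Embeds 𝕜 q x := by
  have hβ : ∀ k, 0 < 1 + β k := fun k => by linarith [β_nn k]
  have c1 : ∀ k : ℕ, |(fun _ => (1:ℝ)) k| ≤ 1 := by simp
  have c2 : ∀ k, |(fun k => -(1 / (1 + β k))) k| ≤ 1 := fun k => by
    rw [abs_neg, abs_of_pos (one_div_pos.2 (hβ k)), div_le_one (hβ k)]; linarith [β_nn k]
  have hz : ∀ c : ℕ → ℝ, (∀ k, |c k| ≤ 1) → ∀ n, ‖(z c n : H 𝕜)‖ ≤ 3 := fun c hc n => by
    simpa using bound (𝕜 := 𝕜) c hc {n} 1 (by simp)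
  have hp : ∀ c : ℕ → ℝ, (∀ k, |c k| ≤ 1) → ∀ m, 0 ≤ phi 𝕜 (z c : ℕ → H 𝕜) m ∧
      phi 𝕜 (z c : ℕ → H 𝕜) m ≤ 3 * √m := fun c hc m =>
    ⟨Real.sSup_nonneg (by rintro _ ⟨A, ε, -, -, rfl⟩; positivity), Real.sSup_le (by
      rintro _ ⟨A, ε, h1, h2, rfl⟩
      exact (bound c hc A ε h2).trans (by gcongr)) (by positivity)⟩
  refine ⟨z fun _ => 1, z fun k => -(1 / (1 + β k)), ⟨?_, fun m n => ?_, dense _ fun k => ?_, 3,
    fun n => ⟨hz _ c1 n, hz _ c2 n⟩⟩, ⟨9, fun m hm => ?_⟩, fun q hq ⟨C, hC⟩ => ?_⟩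
  · rw [Submodule.dense_iff_topologicalClosure_eq_top, Submodule.topologicalClosure_eq_top_iff,
      Submodule.eq_bot_iff]
    exact fun f hf => dense (fun _ => 1) (fun k => by simpa using (hβ k).ne') f fun n =>
      hf _ (Submodule.subset_span ⟨n, rfl⟩)
  · have ve : ∀ k n, ⟪(v k : H 𝕜), e n⟫_𝕜 = if n.unpair.1 = k then (b n : 𝕜) else 0 := fun k n => by
      rw [← inner_conj_symm, ev]; split_ifs <;> simp
    simp only [z, inner_add_left, inner_add_right, inner_smul_left, inner_smul_right, ee, ev, ve,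
      vv, RCLike.conj_ofReal, add_assoc, add_eq_left]
    by_cases h : m.unpair.1 = n.unpair.1
    · simp only [h, if_true, ← RCLike.ofReal_mul, ← RCLike.ofReal_add, RCLike.ofReal_eq_zero]
      by_cases h' : b n = 0
      · simp [h']
      have := β_pos h'
      have := hβ n.unpair.1
      field_simp; ring
    · simp [h, Ne.symm h]
  · have := hβ k
    rw [show 1 + -(1 / (1 + β k)) * β k = 1 / (1 + β k) by field_simp; ring]
    positivity
  · rw [div_le_iff₀ (by positivity)]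
    refine (mul_le_mul (hp _ c1 m).2 (hp _ c2 m).2 (hp _ c2 m).1 (by positivity)).trans ?_
    nlinarith [Real.mul_self_sqrt (show (0:ℝ) ≤ m by positivity)]
  · have h0 : 0 < 1 - 1 / q := by rw [sub_pos, div_lt_one (by linarith)]; exact hq
    obtain ⟨k, hk, hk'⟩ := ((((tendsto_rpow_atTop h0).comp
      Real.tendsto_sum_range_one_div_nat_succ_atTop).eventually (eventually_gt_atTop |C|)).and
      (Real.tendsto_sum_range_one_div_nat_succ_atTop.eventually (eventually_gt_atTop 0))).exists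
    set S := ∑ j ∈ range k, 1 / ((j : ℝ) + 1) with hS
    set a : ℕ →₀ 𝕜 := ∑ j ∈ range k, Finsupp.single (k.pair j) (b (k.pair j) : 𝕜)
    have ha : ∀ i t, 0 ≤ t → t < ‖a i‖ → ∃ j < k, i = k.pair j ∧ t < 1 / √(j + 1) := by
      intro i t ht h
      by_contra! h'
      refine absurd h (not_lt.2 ?_)
      simp only [a, Finsupp.finsetSum_apply, Finsupp.single_apply]
      by_cases g : ∃ j < k, i = k.pair j
      · obtain ⟨j, hj, rfl⟩ := g
        rw [sum_eq_single j (fun l _ hl => if_neg fun e => hl (Nat.pair_eq_pair.1 e).2) (by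
          simp [hj]), if_pos rfl, RCLike.norm_ofReal, b]
        simp only [Nat.unpair_pair, if_pos hj]
        rw [abs_of_nonneg (by positivity)]
        exact h' j hj rfl
      · push Not at g
        rw [sum_eq_zero fun j hj => if_neg (g j (mem_range.1 hj)).symm, norm_zero]; exact ht
    have hr : ∀ n t, 0 ≤ t → (∀ j < k, t < 1 / √(j + 1) → j < n) → rearr a n ≤ t := by
      intro n t ht h
      refine csInf_le ⟨0, fun _ h => h.1⟩ ⟨ht, ?_⟩
      refine (Set.encard_le_encard (t := k.pair '' Set.Iio n) fun i hi => ?_).trans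
        ((Set.encard_image_le _ _).trans (by
          rw [← coe_Iio, Set.encard_coe_eq_coe_finsetCard, Nat.card_Iio]))
      obtain ⟨j, h1, rfl, h2⟩ := ha i t ht hi
      exact ⟨j, h j h1 h2, rfl⟩
    have hr0 : ∀ n, 0 ≤ rearr a n := fun n => Real.sInf_nonneg fun _ h => h.1
    have h1 : lorentz q a ≤ S ^ (1 / q) := by
      refine Real.rpow_le_rpow (tsum_nonneg fun n => by have := hr0 n; positivity) ?_
        (by positivity)
      rw [tsum_eq_sum (s := range k) fun n hn => by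
        rw [le_antisymm (hr n 0 le_rfl fun j hj _ => hj.trans_le (not_lt.1 (mem_range.not.1 hn)))
          (hr0 n), Real.zero_rpow (by linarith), zero_mul]]
      refine sum_le_sum fun n _ => ?_
      have hn : (0:ℝ) < n + 1 := by positivity
      have := hr n (1 / √(n + 1)) (by positivity) fun j _ h => by
        by_contra! g
        exact absurd h (not_lt.2 (by gcongr))
      refine (mul_le_mul_of_nonneg_right (Real.rpow_le_rpow (hr0 n) this (by linarith))
        (by positivity)).trans (le_of_eq ?_)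
      rw [Real.sqrt_eq_rpow, one_div, ← Real.rpow_neg hn.le, ← Real.rpow_mul hn.le,
        ← Real.rpow_add hn, one_div ((n:ℝ) + 1), ← Real.rpow_neg_one]
      congr 1; ring
    have h2 : (a.sum fun n t => t • (z (fun _ => 1) n : H 𝕜)) = ((1 + β k : ℝ) : 𝕜) • v k := by
      rw [← Finsupp.linearCombination_apply, map_sum]
      simpa only [Finsupp.linearCombination_single, one_mul] using comb (𝕜 := 𝕜) (fun _ => 1) k
    have h3 := hC a
    rw [h2, norm_smul, norm_eq_sqrt_re_inner (𝕜 := 𝕜) (v k), vv, if_pos rfl, RCLike.ofReal_re,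
      Real.sqrt_mul_self (β_nn k), RCLike.norm_ofReal, abs_of_pos (hβ k)] at h3
    have h4 : β k * β k = S := Real.mul_self_sqrt hk'.le
    have h5 : 0 ≤ lorentz q a :=
      Real.rpow_nonneg (tsum_nonneg fun n => by have := hr0 n; positivity) _
    have h6 : S ^ (1 - 1 / q) * S ^ (1 / q) = S := by rw [← Real.rpow_add hk']; simp
    have h7 := mul_lt_mul_of_pos_right hk (Real.rpow_pos_of_pos hk' (1 / q))
    simp only [Function.comp_apply] at h7
    nlinarith [β_nn k, mul_le_mul (le_abs_self C) h1 h5 (abs_nonneg C)]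

end Pool.Agent.Results.MP_c77635_an.Counter
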